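import Pool.Agent.V8H61.SM.Dis

set_option autoImplicit false

/-!
# The standard map is nearly disjoint, at the scale `|a|^(-1/6)`, from every measure preserving system

Let `S_a (x, y) = (2x - y + a sin 2πx, x)` on the torus with its area `m`; EVERY parameter `|a| ≥ 1` is
allowed.  Ergodicity (part of the conjecture of Sinai) says that an invariant function of `S_a` is
constant; mixing properties say more: for suitable systems `(Y, Φ, ν)` the invariant functions of the
product `S_a × Φ` depend on `Y` only.  Here, for ALL probability preserving systems `(Y, Φ, ν)`, all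
square integrable functions `f` on the product which are invariant under `S_a × Φ`, and all boxes `R`,

`∫_Y (∫_R f(p, y) dp - m(R) ∫ f(p, y) dp)² dν(y) ≤ C |a|^(-1/3) ∫ f²`:

seen in the boxes, `f` depends nearly on `y` only.  When `Y` is a point this is an approximate
ergodicity of `S_a`; when `Φ` is a rotation of the circle, it says that the eigenfunctions of `S_a` of
norm one for the eigenvalues `λ ≠ 1` have integrals `O(|a|^(-1/6))` over all boxes; when `Φ` is `S_a`
again, it is an approximate weak mixing.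
-/

open Real MeasureTheory

universe u

namespace Pool.Agent.Results.MP_9ee088_an.DisjointnessAtScale

/-- The torus `ℝ² / ℤ²`, with its Lebesgue measure `volume`. -/
abbrev Torus := UnitAddCircle × UnitAddCircle

/-- `T` is the standard map `S_a` of the torus. -/
def IsStandardMap (a : ℝ) (T : Torus → Torus) : Prop :=
  ∀ x y : ℝ, T ((x : UnitAddCircle), (y : UnitAddCircle)) =
    (((2 * x - y + a * sin (2 * π * x) : ℝ) : UnitAddCircle), (x : UnitAddCircle))

/-- An open arc, the image of `(c - w, c + w)` with `0 < w ≤ 1/2`. -/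
def IsArc (J : Set UnitAddCircle) : Prop :=
  ∃ c w : ℝ, 0 < w ∧ w ≤ 1 / 2 ∧
    J = (fun t : ℝ => (t : UnitAddCircle)) '' Set.Ioo (c - w) (c + w)

/-- `R` is a box: a product of a Borel set and an arc, in one of the two orders. -/
def IsBox (R : Set Torus) : Prop :=
  ∃ E J : Set UnitAddCircle, MeasurableSet E ∧ IsArc J ∧ (R = E ×ˢ J ∨ R = J ×ˢ E)

/-- The difference `∫_R f(p, y) dp - m(R) ∫ f(p, y) dp`. -/
noncomputable def deviation {Y : Type u} (f : Torus × Y → ℝ) (R : Set Torus) (y : Y) : ℝ :=
  (∫ p in R, f (p, y)) - volume.real R * ∫ p : Torus, f (p, y)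

theorem arc_prop {J : Set UnitAddCircle} (hJ : IsArc J) :
    MeasurableSet J ∧ V1152.SMI.Smoothable J 2 := by
  obtain ⟨c, w, hw, hw2, rfl⟩ := hJ
  exact ⟨(V1152.SMI.arc_open (c := c) hw hw2).measurableSet, V1152.SMI.smoothable_arc hw hw2⟩

/-- **Near disjointness of the standard map from all measure preserving systems.** -/
theorem result : ∃ C : ℝ, 0 < C ∧ ∀ a : ℝ, 1 ≤ |a| → ∀ T : Torus → Torus, IsStandardMap a T →
    ∀ (Y : Type u) [MeasurableSpace Y] (ν : Measure Y) [IsProbabilityMeasure ν] (Φ : Y → Y),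
    MeasurePreserving Φ ν ν → ∀ f : Torus × Y → ℝ, Measurable f →
    Integrable (fun q => f q ^ 2) ((volume : Measure Torus).prod ν) →
    (∀ᵐ q ∂((volume : Measure Torus).prod ν), f (T q.1, Φ q.2) = f q) →
    ∀ R : Set Torus, IsBox R →
      ∫ y, deviation f R y ^ 2 ∂ν ≤
        C * |a| ^ (-(1 / 3) : ℝ) * ∫ q, f q ^ 2 ∂((volume : Measure Torus).prod ν) := by
  refine ⟨V8H61.SM.CD, V8H61.SM.CD_pos, ?_⟩
  intro a ha T hT Y _ ν _ Φ hΦ f hf hf2 hinv R hR
  have hTS : T = TH705.SM.S a := TH705.SM.eq_S a T hT
  rw [hTS] at hinv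
  have hvol : ∀ E J : Set UnitAddCircle,
      (volume : Measure Torus).real (E ×ˢ J) = volume.real E * volume.real J := by
    intro E J
    have : (volume : Measure Torus) (E ×ˢ J) = volume E * volume J := by
      rw [TH705.SM.vol_T2, Measure.prod_prod]
    rw [measureReal_def, this, ENNReal.toReal_mul]
    rfl
  obtain ⟨E, J, hE, hJ, rfl | rfl⟩ := hR
  · obtain ⟨hJm, hJs⟩ := arc_prop hJ
    have h := V8H61.SM.dis_one ha (Or.inl rfl) hΦ hf hf2 hinv hE hJm hJs
    unfold deviation
    rw [hvol]
    exact h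
  · obtain ⟨hJm, hJs⟩ := arc_prop hJ
    have h := V8H61.SM.dis_two ha hΦ hf hf2 hinv hE hJm hJs
    unfold deviation
    rw [hvol, mul_comm (volume.real J)]
    exact h

end Pool.Agent.Results.MP_9ee088_an.DisjointnessAtScale
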