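import Pool.Agent.V8H61.SM.Fin

set_option autoImplicit false

/-!
# Finite-time hyperbolicity of the standard map up to times of order `|a|² / log² |a|`, for every
parameter

`F_a (x, y) = (2x - y + a sin 2πx, x)` is the lift of `S_a` to the plane.  The hyperbolicity asked for
by the conjecture of Sinai says that `‖D S_a^n‖` grows exponentially at almost every point as
`n → ∞`.  Here, for EVERY parameter `|a| ≥ 1`, at every time `n` and for every `0 < δ ≤ 1`:

`exp (n (log (π |a|) - δ)) ≤ |∂x_n/∂x| ≤ ‖D S_a^n‖ ≤ exp (n (log (π |a|) + δ))`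

outside a set of area at most
`C (1 + log |a|)² ((1/n + |a|^(-1/3)) / δ² + n / |a|²)`; so this holds at most points as long as `n` is
much smaller than `|a|² / log² |a|`.  (A typical orbit passes through the critical region
`|cos 2πx| ≤ C/|a|`, where the map is not hyperbolic, as soon as `n` is of order `|a|`; the times here
are well beyond that.)
-/

open Real MeasureTheory Filter Topology

namespace Pool.Agent.Results.MP_9ee088_an.LongHyperbolicity

/-- The torus `ℝ² / ℤ²`, with its Lebesgue measure `volume`. -/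
abbrev Torus := UnitAddCircle × UnitAddCircle

/-- The lift `(x, y) ↦ (2 x - y + a sin 2 π x, x)` of `S_a` to the plane. -/
noncomputable def planeMap (a : ℝ) (p : ℝ × ℝ) : ℝ × ℝ :=
  (2 * p.1 - p.2 + a * sin (2 * π * p.1), p.1)

/-- The derivative `∂x_n/∂x` at the point `(x, y)`, where `x_n` is the first coordinate of the `n`-th
point of the orbit of `(x, y)`. -/
noncomputable def dx (a : ℝ) (n : ℕ) (x y : ℝ) : ℝ :=
  deriv (fun t => ((planeMap a)^[n] (t, y)).1) x

/-- The exponent over the time `n` is `log (π |a|)` up to `δ`, from below along the horizontal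
direction and from above for the whole derivative. -/
structure Hyperbolic (a δ : ℝ) (n : ℕ) (x y : ℝ) : Prop where
  lower : exp (n * (log (π * |a|) - δ)) ≤ |dx a n x y|
  upper : ‖fderiv ℝ (planeMap a)^[n] (x, y)‖ ≤ exp (n * (log (π * |a|) + δ))

/-- The points of the torus where this fails (for some coordinates `x`, `y` of the point). -/
def exceptional (a δ : ℝ) (n : ℕ) : Set Torus :=
  {p | ∃ x y : ℝ, p = ((x : UnitAddCircle), (y : UnitAddCircle)) ∧ ¬ Hyperbolic a δ n x y}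

/-- The error `(1 + log |a|)² ((1/n + |a|^(-1/3)) / δ² + n / |a|²)`. -/
noncomputable def err (a δ : ℝ) (n : ℕ) : ℝ :=
  (1 + log |a|) ^ 2 * ((1 / n + |a| ^ (-(1 / 3) : ℝ)) / δ ^ 2 + n / |a| ^ 2)

theorem dx_eq (a : ℝ) (n : ℕ) (x y : ℝ) : dx a n x y = TH705.SM.D a y (n + 1) x := by
  have h : (fun t => ((planeMap a)^[n] (t, y)).1) = TH705.SM.X a y (n + 1) := by
    funext t
    have h := TH705.SM.iter_plane a y t n
    show ((fun p : ℝ × ℝ => (2 * p.1 - p.2 + a * sin (2 * π * p.1), p.1))^[n] (t, y)).1 = _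
    rw [h]
  unfold dx
  rw [h, (TH705.SM.X_hasDeriv a y (n + 1) x).deriv]

theorem planeMap_eq : planeMap = V1152.SMI.pm := rfl

/-- `∂x_n/∂x` is an entry of the derivative `D F_a^n` -/
theorem dx_entry (a : ℝ) (n : ℕ) (x y : ℝ) :
    dx a n x y = (fderiv ℝ (planeMap a)^[n] (x, y) (1, 0)).1 := by
  have h1 : HasDerivAt (fun t : ℝ => (t, y)) ((1:ℝ), (0:ℝ)) x :=
    (hasDerivAt_id x).prodMk (hasDerivAt_const x y)
  have h2 : HasFDerivAt (planeMap a)^[n] (fderiv ℝ (planeMap a)^[n] (x, y)) (x, y) :=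
    (V1152.SMI.pm_iter_fderiv a (x, y) n).1.hasFDerivAt
  have h3 : HasDerivAt (fun t : ℝ => (planeMap a)^[n] (t, y))
      (fderiv ℝ (planeMap a)^[n] (x, y) (1, 0)) x := h2.comp_hasDerivAt x h1
  exact (hasFDerivAt_fst.comp_hasDerivAt x h3).deriv

theorem dx_le (a : ℝ) (n : ℕ) (x y : ℝ) : |dx a n x y| ≤ ‖fderiv ℝ (planeMap a)^[n] (x, y)‖ := by
  rw [dx_entry]
  have h1 : |(fderiv ℝ (planeMap a)^[n] (x, y) (1, 0)).1| ≤
      ‖fderiv ℝ (planeMap a)^[n] (x, y) (1, 0)‖ := by
    rw [← Real.norm_eq_abs]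
    exact norm_fst_le _
  refine h1.trans ((ContinuousLinearMap.le_opNorm _ _).trans ?_)
  simp

theorem exceptional_anti (a : ℝ) (n : ℕ) {δ δ' : ℝ} (h : δ' ≤ δ) :
    exceptional a δ n ⊆ exceptional a δ' n := by
  rintro p ⟨x, y, rfl, hxy⟩
  refine ⟨x, y, rfl, fun hh => hxy ?_⟩
  have hn : (0:ℝ) ≤ n := Nat.cast_nonneg n
  obtain ⟨h1, h2⟩ := hh
  refine ⟨le_trans ?_ h1, h2.trans ?_⟩
  · apply Real.exp_le_exp.2
    exact mul_le_mul_of_nonneg_left (by linarith) hn
  · apply Real.exp_le_exp.2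
    exact mul_le_mul_of_nonneg_left (by linarith) hn

/-- **Finite-time hyperbolicity of the standard map for long times, for every parameter.** -/
theorem result :
    -- (1) the area of the exceptional set, for every parameter, every time and every precision
    (∃ C : ℝ, 0 < C ∧ ∀ a : ℝ, 1 ≤ |a| → ∀ n : ℕ, 1 ≤ n → ∀ δ : ℝ, 0 < δ → δ ≤ 1 →
      volume (exceptional a δ n) ≤ ENNReal.ofReal (C * err a δ n)) ∧
    -- (2) the two sides of `Hyperbolic` compare
    (∀ (a : ℝ) (n : ℕ) (x y : ℝ), |dx a n x y| ≤ ‖fderiv ℝ (planeMap a)^[n] (x, y)‖) ∧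
    -- (3) the exponents over the times `n_j` tend to be `log (π |a_j|)` in probability
    (∀ (a : ℕ → ℝ) (n : ℕ → ℕ), Tendsto (fun j => |a j|) atTop atTop →
      Tendsto (fun j => log |a j| ^ 2 / n j) atTop (𝓝 0) →
      Tendsto (fun j => log |a j| ^ 2 * n j / |a j| ^ 2) atTop (𝓝 0) → (∀ j, 1 ≤ n j) →
      ∀ δ : ℝ, 0 < δ → Tendsto (fun j => volume (exceptional (a j) δ (n j))) atTop (𝓝 0)) := by
  have key : ∀ a : ℝ, 1 ≤ |a| → ∀ n : ℕ, 1 ≤ n → ∀ δ : ℝ, 0 < δ → δ ≤ 1 →
      volume (exceptional a δ n) ≤ ENNReal.ofReal (V8H61.SM.C0 * err a δ n) := by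
    intro a ha n hn δ hδ hδ1
    obtain ⟨B, -, hB, h⟩ := V8H61.SM.long ha hn hδ hδ1
    have hsub : exceptional a δ n ⊆ B := by
      rintro p ⟨x, y, rfl, hxy⟩
      by_contra hp
      obtain ⟨h1, h2⟩ := h x y hp
      exact hxy ⟨by rw [dx_eq]; exact h1, h2⟩
    refine (measure_mono hsub).trans ?_
    rw [← ENNReal.ofReal_toReal (measure_ne_top volume B)]
    apply ENNReal.ofReal_le_ofReal
    refine hB.trans (le_of_eq ?_)
    unfold err
    ring
  refine ⟨⟨V8H61.SM.C0, by linarith [V8H61.SM.C0_ge.2.2], key⟩, dx_le, ?_⟩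
  intro a n ha h1 h2 hn
  have hanti : ∀ δ : ℝ, 0 < δ → δ ≤ 1 →
      Tendsto (fun j => volume (exceptional (a j) δ (n j))) atTop (𝓝 0) := ?_
  · intro δ hδ
    refine tendsto_of_tendsto_of_tendsto_of_le_of_le tendsto_const_nhds
      (hanti (min δ 1) (lt_min hδ one_pos) (min_le_right _ _)) (fun _ => bot_le) fun j => ?_
    exact measure_mono (exceptional_anti _ _ (min_le_left _ _))
  intro δ hδ hδ1
  have hC : 0 < V8H61.SM.C0 := by linarith [V8H61.SM.C0_ge.2.2]
  have hev : ∀ᶠ j in atTop, 3 ≤ |a j| := ha.eventually_ge_atTop 3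
  -- the error tends to zero
  have hp : Tendsto (fun j => log |a j| ^ 2 * |a j| ^ (-(1 / 3) : ℝ)) atTop (𝓝 0) := by
    have h := (isLittleO_log_rpow_rpow_atTop (s := 1 / 3) 2 (by norm_num)).tendsto_div_nhds_zero
    have h3 := h.comp ha
    refine h3.congr' ?_
    filter_upwards [hev] with j hj
    simp only [Function.comp_apply]
    have : 0 < |a j| := by linarith
    rw [Real.rpow_neg this.le, ← div_eq_mul_inv]
    norm_num
  have hsum : Tendsto (fun j => V8H61.SM.C0 * (4 * ((log |a j| ^ 2 / n j +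
      log |a j| ^ 2 * |a j| ^ (-(1 / 3) : ℝ)) / δ ^ 2 + log |a j| ^ 2 * n j / |a j| ^ 2))) atTop
      (𝓝 0) := by
    have h := ((((h1.add hp).div_const (δ ^ 2)).add h2).const_mul 4).const_mul V8H61.SM.C0
    simpa using h
  have hle : ∀ᶠ j in atTop, volume (exceptional (a j) δ (n j)) ≤ ENNReal.ofReal
      (V8H61.SM.C0 * (4 * ((log |a j| ^ 2 / n j +
      log |a j| ^ 2 * |a j| ^ (-(1 / 3) : ℝ)) / δ ^ 2 + log |a j| ^ 2 * n j / |a j| ^ 2))) := by
    filter_upwards [hev] with j hj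
    refine (key (a j) (by linarith) (n j) (hn j) δ hδ hδ1).trans ?_
    apply ENNReal.ofReal_le_ofReal
    apply mul_le_mul_of_nonneg_left _ hC.le
    have ha0 : 0 < |a j| := by linarith
    have hlog : 1 ≤ log |a j| := by
      rw [Real.le_log_iff_exp_le ha0]
      have := Real.exp_one_lt_d9
      linarith
    have hu : 0 < |a j| ^ (-(1 / 3) : ℝ) := Real.rpow_pos_of_pos ha0 _
    have e : 4 * ((log |a j| ^ 2 / n j + log |a j| ^ 2 * |a j| ^ (-(1 / 3) : ℝ)) / δ ^ 2 +
        log |a j| ^ 2 * n j / |a j| ^ 2) =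
        (2 * log |a j|) ^ 2 * ((1 / n j + |a j| ^ (-(1 / 3) : ℝ)) / δ ^ 2 + n j / |a j| ^ 2) := by
      ring
    rw [e]
    unfold err
    apply mul_le_mul_of_nonneg_right _ (by positivity)
    exact pow_le_pow_left₀ (by linarith) (by linarith) 2
  have hz := ENNReal.tendsto_ofReal hsum
  rw [ENNReal.ofReal_zero] at hz
  exact tendsto_of_tendsto_of_tendsto_of_le_of_le' tendsto_const_nhds hz
    (Eventually.of_forall fun _ => bot_le) hle

end Pool.Agent.Results.MP_9ee088_an.LongHyperbolicity
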