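import Pool.Agent.V8H61.SM.Per

set_option autoImplicit false

/-!
# Exclusion of parameters: the periodic orbits of the standard map with one passage through the
critical strips

`F_a (x, y) = (2x - y + a sin 2πx, x)` is the lift of `S_a` to the plane, and
`c_k = 2 + 2πa cos 2πx_k` is the expansion at the `k`-th point of the orbit.  The map is not
hyperbolic only where `|a cos 2πx|` is bounded, in two strips of width `O(1/|a|)`.  A periodic orbit
has AT MOST ONE PASSAGE (with the constant `K`) if `|a cos 2πx_k| ≥ K` for all its points but one.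

The periodic orbits that never meet the strips are hyperbolic.  The theorem treats those with one
passage, of all periods at once: for all parameters but a set of measure at most `C/A` in
`A ≤ |a| ≤ A + 1`, every such periodic point `p`, of any period `q`, is hyperbolic, with

`|trace D S_a^q (p)| > 2 ∏_{0<k<q} (|c_k| - 1)^θ`

for a given `θ < 1/2`.  So one passage never costs (much) more than half of the exponent gained on the
rest of the orbit.  The order `1/A` of the measure is exact: the fixed points are elliptic on intervals of length of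
order `1/A`.
-/

open Real MeasureTheory Function

namespace Pool.Agent.Results.MP_9ee088_an.OnePassageExclusion

/-- The lift `(x, y) ↦ (2 x - y + a sin 2 π x, x)` of `S_a` to the plane. -/
noncomputable def planeMap (a : ℝ) (p : ℝ × ℝ) : ℝ × ℝ :=
  (2 * p.1 - p.2 + a * sin (2 * π * p.1), p.1)

/-- The upper left entry `c_k = 2 + 2 π a cos 2πx_k` of the derivative of `planeMap a` at the `k`-th
point `(x_k, y_k)` of the orbit of `p`. -/
noncomputable def slope (a : ℝ) (p : ℝ × ℝ) (k : ℕ) : ℝ :=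
  2 + 2 * π * a * cos (2 * π * ((planeMap a)^[k] p).1)

/-- The trace of the derivative of the `q`-th iterate of `planeMap a` at `p`. -/
noncomputable def trace (a : ℝ) (q : ℕ) (p : ℝ × ℝ) : ℝ :=
  (fderiv ℝ (planeMap a)^[q] p (1, 0)).1 + (fderiv ℝ (planeMap a)^[q] p (0, 1)).2

/-- The class modulo `ℤ²` of the point `p` is periodic for `S_a`, of period `q ≥ 1`, and `p` is the
only point of its orbit that may lie in the strips `|a cos 2πx| < K`. -/
structure OnePassage (K a : ℝ) (q : ℕ) (p : ℝ × ℝ) : Prop where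
  pos : 0 < q
  periodic : ∃ m n : ℤ, (planeMap a)^[q] p = (p.1 + m, p.2 + n)
  outside : ∀ k, 0 < k → k < q → K ≤ |a * cos (2 * π * ((planeMap a)^[k] p).1)|

/-- All the periodic points with at most one passage, of all periods, are hyperbolic, with
`|trace| > 2 ∏_{0<k<q} (|c_k| - 1)^θ`. -/
def Good (K θ a : ℝ) : Prop :=
  ∀ (q : ℕ) (p : ℝ × ℝ), OnePassage K a q p →
    2 * (∏ k ∈ Finset.Ico 1 q, (|slope a p k| - 1)) ^ θ < |trace a q p|

open Pool.Agent.V8H61.SM Pool.Agent.V1152.SMI

theorem pm_eq (a : ℝ) : planeMap a = pm a := rfl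

theorem slope_eq (a : ℝ) (p : ℝ × ℝ) (k : ℕ) :
    slope a p k = TH705.SM.L a ((pm a)^[k] p).1 := by
  unfold slope TH705.SM.L
  rw [pm_eq]

theorem trace_eq' (a : ℝ) (p : ℝ × ℝ) {q : ℕ} (hq : 1 ≤ q) :
    trace a q p = Ar (slope a p) q - Dr (slope a p) (q - 1) := by
  have h := tr_eq a p hq
  have e : slope a p = fun k => TH705.SM.L a ((pm a)^[k] p).1 := funext fun k => slope_eq a p k
  rw [e, ← h]
  rfl

/-! ### Negative parameters -/

/-- the translation by `(1/2, 1/2)` -/
noncomputable def T (p : ℝ × ℝ) : ℝ × ℝ := (p.1 + 1 / 2, p.2 + 1 / 2)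

theorem conj_T (a : ℝ) (p : ℝ × ℝ) : planeMap (-a) (T p) = T (planeMap a p) := by
  unfold planeMap T
  have h : sin (2 * π * (p.1 + 1 / 2)) = -sin (2 * π * p.1) := by
    rw [show 2 * π * (p.1 + 1 / 2) = 2 * π * p.1 + π by ring, sin_add_pi]
  simp only [h, Prod.mk.injEq, and_true]
  ring

theorem iter_T (a : ℝ) (k : ℕ) (p : ℝ × ℝ) : (planeMap (-a))^[k] (T p) = T ((planeMap a)^[k] p) := by
  induction k with
  | zero => rfl
  | succ k ih => rw [iterate_succ_apply', iterate_succ_apply', ih, conj_T]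

theorem cos_T (t : ℝ) : cos (2 * π * (t + 1 / 2)) = -cos (2 * π * t) := by
  rw [show 2 * π * (t + 1 / 2) = 2 * π * t + π by ring, cos_add_pi]

theorem slope_T (a : ℝ) (p : ℝ × ℝ) : slope (-a) (T p) = slope a p := by
  funext k
  unfold slope
  rw [iter_T]
  show 2 + 2 * π * -a * cos (2 * π * (((planeMap a)^[k] p).1 + 1 / 2)) = _
  rw [cos_T]
  ring

theorem good_neg {K θ a : ℝ} (h : Good K θ (-a)) : Good K θ a := by
  intro q p hp
  obtain ⟨m, n, hmn⟩ := hp.periodic
  have h1 : OnePassage K (-a) q (T p) := by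
    refine ⟨hp.pos, ⟨m, n, ?_⟩, ?_⟩
    · rw [iter_T, hmn]
      unfold T
      ext <;> simp <;> ring
    · intro k hk hkq
      have h2 := hp.outside k hk hkq
      rw [iter_T]
      show K ≤ |-a * cos (2 * π * (((planeMap a)^[k] p).1 + 1 / 2))|
      rw [cos_T, neg_mul_neg]
      exact h2
  have h2 := h q (T p) h1
  rw [trace_eq' _ _ hp.pos, slope_T] at h2
  rw [trace_eq' _ _ hp.pos]
  exact h2

/-! ### The excluded parameters -/

theorem bad_sub {K θ a : ℝ} {N : ℕ} (h1 : (N:ℝ) ≤ a) (h2 : a ≤ N + 1) (h : ¬ Good K θ a) :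
    a ∈ ⋃ n : ℕ, EQ K θ N (n + 1) := by
  unfold Good at h
  push Not at h
  obtain ⟨q, p, hp, htr⟩ := h
  obtain ⟨m, n, hmn⟩ := hp.periodic
  obtain ⟨r, rfl⟩ : ∃ r, q = r + 1 := ⟨q - 1, by have := hp.pos; omega⟩
  rw [Set.mem_iUnion]
  refine ⟨r, h1, h2, ?_⟩
  apply ell_of (x := p.1) (y := p.2) (m := m) (n := n) hmn hp.outside
  refine htr.trans (le_of_eq ?_)
  rfl

/-! ### The elliptic fixed points -/

theorem fixed_bad {K θ a : ℝ} {N : ℕ} (hN : 1 ≤ N) (h1 : (N:ℝ) ≤ a) (h2 : a ≤ N + 1 / (10 * N)) :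
    ¬ Good K θ a := by
  intro h
  have hN' : (1:ℝ) ≤ N := by exact_mod_cast hN
  have ha : 0 < a := by linarith
  set s := (N:ℝ) / a with hs
  have hs0 : 0 ≤ s := by positivity
  have hs1 : s ≤ 1 := by rw [hs, div_le_one ha]; exact h1
  set x := 1 / 2 - arcsin s / (2 * π) with hx
  have hx2 : 2 * π * x = π - arcsin s := by
    rw [hx]; field_simp
  have hsin : sin (2 * π * x) = s := by
    rw [hx2, sin_pi_sub, sin_arcsin (by linarith) hs1]
  have hcos : cos (2 * π * x) = -√(1 - s ^ 2) := by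
    rw [hx2, cos_pi_sub, cos_arcsin]
  have has : a * s = N := by rw [hs]; field_simp
  have hp : OnePassage K a 1 (x, x) := by
    refine ⟨one_pos, ⟨N, 0, ?_⟩, fun k hk hk1 => by omega⟩
    rw [iterate_one]
    unfold planeMap
    simp only [hsin, has, Int.cast_natCast, Int.cast_zero, add_zero, Prod.mk.injEq, and_true]
    ring
  have h3 := h 1 (x, x) hp
  rw [trace_eq' a _ le_rfl] at h3
  have e : Ar (slope a (x, x)) 1 - Dr (slope a (x, x)) (1 - 1) = slope a (x, x) 0 := by
    show slope a (x, x) 0 - 0 = _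
    ring
  rw [e] at h3
  simp only [Finset.Ico_self, Finset.prod_empty, Real.one_rpow, mul_one] at h3
  have e2 : slope a (x, x) 0 = 2 - 2 * π * √(a ^ 2 - N ^ 2) := by
    unfold slope
    rw [iterate_zero, id]
    simp only [hcos]
    have : a * √(1 - s ^ 2) = √(a ^ 2 - N ^ 2) := by
      rw [← has, show a ^ 2 - (a * s) ^ 2 = a ^ 2 * (1 - s ^ 2) by ring,
        Real.sqrt_mul (by positivity), Real.sqrt_sq ha.le]
    rw [← this]
    ring
  have h4 : √(a ^ 2 - N ^ 2) ≤ 1 / 2 := by
    rw [Real.sqrt_le_left (by norm_num)]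
    have h5 : (a - N) * (10 * N) ≤ 1 := by
      have : a - N ≤ 1 / (10 * N) := by linarith
      rwa [le_div_iff₀ (by positivity)] at this
    nlinarith
  have h0 := Real.sqrt_nonneg (a ^ 2 - N ^ 2)
  rw [e2] at h3
  have h5 : |2 - 2 * π * √(a ^ 2 - N ^ 2)| ≤ 2 := by
    rw [abs_le]
    have := pi_lt_d2
    have := pi_gt_d2
    constructor <;> nlinarith
  linarith

/-- **Exclusion of parameters for the periodic orbits with one passage.**  Let `0 ≤ θ < 1/2` and
`K ≥ 4` with `(6K - 3)^(1-θ) ≥ 15` (`K = 4` if `θ ≤ 1/10`, and `K = 38` for every `θ`).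

(1) There is `C > 0` such that for every `A ≥ 1`, for all the parameters `A ≤ |a| ≤ A + 1` but a set
of measure at most `C/A`, all the periodic points of `S_a` with at most one passage through the
strips `|a cos 2πx| < K`, of all periods, are hyperbolic, with
`|trace D S_a^q (p)| > 2 ∏_{0<k<q} (|c_k| - 1)^θ`.

(2) The order `1/A` is exact: for every integer `N ≥ 1` the measure of the exceptional set in
`[N, N + 1]` is at least `1/(10N)`. -/
theorem result (θ : ℝ) (hθ0 : 0 ≤ θ) (hθ : θ < 1 / 2) (K : ℝ) (hK : 4 ≤ K)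
    (hKθ : 15 ≤ (6 * K - 3) ^ (1 - θ)) :
    (∃ C : ℝ, 0 < C ∧ ∀ A : ℝ, 1 ≤ A →
      volume {a : ℝ | A ≤ |a| ∧ |a| ≤ A + 1 ∧ ¬ Good K θ a} ≤ ENNReal.ofReal (C / A)) ∧
    (∀ N : ℕ, 1 ≤ N → ENNReal.ofReal (1 / (10 * N)) ≤
      volume {a : ℝ | N ≤ a ∧ a ≤ N + 1 ∧ ¬ Good K θ a}) := by
  constructor
  · obtain ⟨N₀, hN₀, hlarge⟩ := large_N hθ
    have hpos : ∀ A : ℝ, 1 ≤ A → volume {a : ℝ | A ≤ a ∧ a ≤ A + 1 ∧ ¬ Good K θ a} ≤
        ENNReal.ofReal ((3584 + (N₀ + 1)) / A) := by
      intro A hA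
      by_cases hc : (N₀:ℝ) + 1 ≤ A
      · set N := ⌊A⌋₊ with hN
        have h1 : (N:ℝ) ≤ A := Nat.floor_le (by linarith)
        have h2 : A < N + 1 := Nat.lt_floor_add_one A
        have h3 : N₀ ≤ N := by
          have : (N₀:ℝ) < N := by linarith
          exact_mod_cast this.le
        have hNpos : (0:ℝ) < N := by
          have : (100:ℝ) ≤ N := by exact_mod_cast hN₀.trans h3
          linarith
        have hsub : {a : ℝ | A ≤ a ∧ a ≤ A + 1 ∧ ¬ Good K θ a} ⊆
            (⋃ n : ℕ, EQ K θ N (n + 1)) ∪ (⋃ n : ℕ, EQ K θ (N + 1) (n + 1)) := by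
          rintro a ⟨a1, a2, a3⟩
          rcases le_total a (N + 1) with h | h
          · exact Or.inl (bad_sub (h1.trans a1) h a3)
          · refine Or.inr (bad_sub (by push_cast; exact h) (by push_cast; linarith) a3)
        refine (measure_mono hsub).trans ((measure_union_le _ _).trans ?_)
        have hv1 := vol_all hK hθ0 (by linarith) hKθ (hN₀.trans h3) (hlarge N h3)
        have hv2 := vol_all hK hθ0 (by linarith) hKθ (N := N + 1) (by omega)
          (hlarge (N + 1) (by omega))
        refine (add_le_add hv1 hv2).trans ?_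
        rw [← ENNReal.ofReal_add (by positivity) (by positivity)]
        apply ENNReal.ofReal_le_ofReal
        push_cast
        have h100 : (100:ℝ) ≤ N₀ := by exact_mod_cast hN₀
        have hA2 : A / 2 ≤ N := by linarith
        have h4 : 896 / (N:ℝ) ≤ 1792 / A := by
          rw [div_le_div_iff₀ hNpos (by linarith)]
          linarith
        have h5 : 896 / ((N:ℝ) + 1) ≤ 1792 / A := by
          rw [div_le_div_iff₀ (by positivity) (by linarith)]
          linarith
        have h6 : 1792 / A + 1792 / A ≤ (3584 + ((N₀:ℝ) + 1)) / A := by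
          rw [← add_div]
          apply div_le_div_of_nonneg_right _ (by linarith)
          have : (0:ℝ) ≤ N₀ := Nat.cast_nonneg _
          linarith
        linarith
      · rw [not_le] at hc
        have hsub : {a : ℝ | A ≤ a ∧ a ≤ A + 1 ∧ ¬ Good K θ a} ⊆ Set.Icc A (A + 1) :=
          fun a ha => ⟨ha.1, ha.2.1⟩
        refine (measure_mono hsub).trans ?_
        rw [Real.volume_Icc]
        apply ENNReal.ofReal_le_ofReal
        rw [show A + 1 - A = 1 by ring, le_div_iff₀ (by linarith)]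
        linarith
    refine ⟨2 * (3584 + (N₀ + 1)), by positivity, fun A hA => ?_⟩
    set E := {a : ℝ | A ≤ a ∧ a ≤ A + 1 ∧ ¬ Good K θ a} with hE
    have hsub : {a : ℝ | A ≤ |a| ∧ |a| ≤ A + 1 ∧ ¬ Good K θ a} ⊆ E ∪ Neg.neg ⁻¹' E := by
      rintro a ⟨a1, a2, a3⟩
      rcases le_total 0 a with h | h
      · rw [abs_of_nonneg h] at a1 a2
        exact Or.inl ⟨a1, a2, a3⟩
      · rw [abs_of_nonpos h] at a1 a2
        exact Or.inr ⟨a1, a2, fun hg => a3 (good_neg hg)⟩
    refine (measure_mono hsub).trans ((measure_union_le _ _).trans ?_)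
    rw [Measure.measure_preimage_neg]
    refine (add_le_add (hpos A hA) (hpos A hA)).trans (le_of_eq ?_)
    rw [← ENNReal.ofReal_add (by positivity) (by positivity)]
    congr 1
    ring
  · intro N hN
    have hN' : (1:ℝ) ≤ N := by exact_mod_cast hN
    have hsub : Set.Icc (N:ℝ) (N + 1 / (10 * N)) ⊆
        {a : ℝ | N ≤ a ∧ a ≤ N + 1 ∧ ¬ Good K θ a} := by
      rintro a ⟨h1, h2⟩
      refine ⟨h1, h2.trans ?_, fixed_bad hN h1 h2⟩
      have : 1 / (10 * (N:ℝ)) ≤ 1 := by
        rw [div_le_one (by positivity)]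
        linarith
      linarith
    refine le_trans (le_of_eq ?_) (measure_mono hsub)
    rw [Real.volume_Icc]
    congr 1
    ring

end Pool.Agent.Results.MP_9ee088_an.OnePassageExclusion
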