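import Pool.Agent.V8H99.RP.Plane

set_option autoImplicit false

/-!
# The exponent of the standard map with very small random perturbations
-/

namespace Pool.Agent.Results.MP_9ee088_an.RandomPerturbations

open Real MeasureTheory Set
open Pool.Agent.V8H99.RP (planeMap noisy noisy_B B_two ll sc)

/-- `ν` is a probability law on `[-1/2, 1/2]` with density at most `M` -/
def IsNoise (ν : Measure ℝ) (M : ℝ) : Prop :=
  IsProbabilityMeasure ν ∧ ν ≤ ENNReal.ofReal M • volume.restrict (Icc (-1 / 2 : ℝ) (1 / 2))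

/-- the mean of `(1 / n) log ‖D (F_{w (n-1)} ∘ ... ∘ F_{w 0}) (x, y)‖` over the unit square and
over independent `w k` of law `ν`, where `F_ω (x, y) = planeMap a (x + ω, y)` -/
noncomputable def meanExponent (a : ℝ) (ν : Measure ℝ) (n : ℕ) : ℝ :=
  1 / n * ∫ w : Fin n → ℝ, (∫ y in (0:ℝ)..1, ∫ x in (0:ℝ)..1,
    log ‖fderiv ℝ (noisy a n w) (x, y)‖) ∂(Measure.pi fun _ => ν)

theorem one_le {ν : Measure ℝ} {M : ℝ} (h : IsNoise ν M) : 1 ≤ M := by
  have := h.1
  have h1 := h.2 Set.univ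
  rw [measure_univ] at h1
  have h2 : (ENNReal.ofReal M • volume.restrict (Icc (-1 / 2 : ℝ) (1 / 2))) Set.univ =
      ENNReal.ofReal M := by
    rw [Measure.smul_apply, Measure.restrict_apply_univ, Real.volume_Icc, smul_eq_mul]
    norm_num
  rw [h2] at h1
  exact ENNReal.one_le_ofReal.1 h1

theorem main {a M : ℝ} {ν : Measure ℝ} (ha : 16 ≤ |a|) (h : IsNoise ν M) {n : ℕ} (hn : 1 ≤ n) :
    |meanExponent a ν n - log (π * |a|)| ≤
      8000 * (1 + log |a|) * √(1 + log |a| + log M) / |a| := by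
  have := h.1
  have h1 := B_two ha (one_le h) h.2 hn
  unfold meanExponent
  rw [noisy_B ha]
  exact h1

theorem result :
    (∃ C : ℝ, 0 < C ∧ ∀ (a M : ℝ) (ν : Measure ℝ), 16 ≤ |a| → IsNoise ν M →
      ∀ n : ℕ, 1 ≤ n → |meanExponent a ν n - log (π * |a|)| ≤
        C * (1 + log |a|) * √(1 + log |a| + log M) / |a|) ∧
    (∀ δ : ℝ, 0 < δ → ∃ c : ℝ, 0 < c ∧ ∃ A : ℝ, 0 < A ∧ ∀ (a : ℝ) (ν : Measure ℝ), A ≤ |a| →
      IsNoise ν (exp (c * a ^ 2)) → ∀ n : ℕ, 1 ≤ n →
        (1 - δ) * log |a| ≤ meanExponent a ν n ∧ meanExponent a ν n ≤ (1 + δ) * log |a|) := by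
  refine ⟨⟨8000, by norm_num, fun a M ν ha h n hn => main ha h hn⟩, ?_⟩
  intro δ hδ
  set D : ℝ := 8000 with hD
  refine ⟨(δ / (8 * D)) ^ 2, by positivity, max 16 (max ((8 * D / δ) ^ 2) (exp (2 * log π / δ))),
    by positivity, ?_⟩
  intro a ν ha h n hn
  have ha16 : 16 ≤ |a| := (le_max_left _ _).trans ha
  have ha2 : (8 * D / δ) ^ 2 ≤ |a| := ((le_max_left _ _).trans (le_max_right _ _)).trans ha
  have ha3 : exp (2 * log π / δ) ≤ |a| := ((le_max_right _ _).trans (le_max_right _ _)).trans ha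
  have ha0 : 0 < |a| := by linarith
  have h1 := main ha16 h hn
  rw [Real.log_exp] at h1
  set t := log |a| with ht
  have ht1 : 1 ≤ t := by
    rw [ht, Real.le_log_iff_exp_le ha0]
    have := Real.exp_one_lt_d9
    linarith
  have hta : 1 + t ≤ |a| := by
    have := Real.log_le_sub_one_of_pos ha0
    linarith
  have hpi : log π ≤ δ / 2 * t := by
    have h2 : 2 * log π / δ ≤ t := by
      rw [ht, Real.le_log_iff_exp_le ha0]
      exact ha3
    rw [div_le_iff₀ hδ] at h2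
    linarith
  have hpi0 : 0 ≤ log π := Real.log_nonneg (by linarith [Real.pi_gt_three])
  have hlog : log (π * |a|) = log π + t := Real.log_mul Real.pi_pos.ne' ha0.ne'
  have hs : √(1 + t + (δ / (8 * D)) ^ 2 * a ^ 2) ≤ δ / (4 * D) * |a| := by
    have h2 : √(1 + t + (δ / (8 * D)) ^ 2 * a ^ 2) ≤ √(1 + t) + √((δ / (8 * D)) ^ 2 * a ^ 2) := by
      rw [Real.sqrt_le_left (by positivity)]
      have q1 := Real.sq_sqrt (show 0 ≤ 1 + t by linarith)
      have q2 := Real.sq_sqrt (show 0 ≤ (δ / (8 * D)) ^ 2 * a ^ 2 by positivity)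
      nlinarith [Real.sqrt_nonneg (1 + t), Real.sqrt_nonneg ((δ / (8 * D)) ^ 2 * a ^ 2),
        mul_nonneg (Real.sqrt_nonneg (1 + t)) (Real.sqrt_nonneg ((δ / (8 * D)) ^ 2 * a ^ 2))]
    have h3 : √((δ / (8 * D)) ^ 2 * a ^ 2) = δ / (8 * D) * |a| := by
      rw [← sq_abs a, ← mul_pow]
      exact Real.sqrt_sq (by positivity)
    have h4 : √(1 + t) ≤ δ / (8 * D) * |a| := by
      rw [Real.sqrt_le_left (by positivity), mul_pow]
      have h5 : 1 ≤ (δ / (8 * D)) ^ 2 * |a| := by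
        have h6 : (δ / (8 * D)) ^ 2 * (8 * D / δ) ^ 2 = 1 := by
          field_simp
        rw [← h6]
        exact mul_le_mul_of_nonneg_left ha2 (by positivity)
      nlinarith
    rw [h3] at h2
    have e : δ / (4 * D) * |a| = δ / (8 * D) * |a| + δ / (8 * D) * |a| := by ring
    rw [e]
    linarith
  have hE : D * (1 + t) * √(1 + t + (δ / (8 * D)) ^ 2 * a ^ 2) / |a| ≤ δ / 2 * t := by
    rw [div_le_iff₀ ha0]
    calc D * (1 + t) * √(1 + t + (δ / (8 * D)) ^ 2 * a ^ 2)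
        ≤ D * (2 * t) * (δ / (4 * D) * |a|) := by
          apply mul_le_mul _ hs (Real.sqrt_nonneg _) (by positivity)
          nlinarith
      _ = δ / 2 * t * |a| := by field_simp; ring
  rw [abs_le] at h1
  obtain ⟨h2, h3⟩ := h1
  rw [hlog] at h2 h3
  have hdt : 0 < δ * t := by positivity
  constructor <;> linarith

end Pool.Agent.Results.MP_9ee088_an.RandomPerturbations
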